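import Pool.Agent.TH605.AP.WF

/-! Job 2850 (helper605, MP_cc6c48_an): the generators map the outside of one disc onto the other. -/

set_option autoImplicit false

open Set Topology Filter Pool.Agent.TH605.AP

namespace Pool.Agent.TH187.J2850

theorem s_inj (B : BF) (i : Fin 4) : Function.Injective (s i) := by
  intro x y h
  have := congrArg (s i) h
  rwa [B.s_s, B.s_s] at this

theorem sg_inj (W : WF) (u : List (Fin 4)) : Function.Injective (sg u) := by
  intro x y h
  have := congrArg (sg u.reverse) h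
  rwa [W.sg_reverse, W.sg_reverse] at this

theorem sg_rev' (W : WF) (u : List (Fin 4)) (z : OnePoint ℂ) : sg u (sg u.reverse z) = z := by
  have := W.sg_reverse u.reverse z
  rwa [List.reverse_reverse] at this

theorem mem_sg_image (W : WF) (u : List (Fin 4)) (S : Set (OnePoint ℂ)) (z : OnePoint ℂ) :
    z ∈ sg u '' S ↔ sg u.reverse z ∈ S := by
  constructor
  · rintro ⟨x, hx, rfl⟩
    rwa [W.sg_reverse]
  · intro h
    exact ⟨_, h, sg_rev' W u z⟩

theorem gen_maps (B : BF) (W : WF) (M : MF) (t : Option (List (Fin 4))) (z : OnePoint ℂ) :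
    (gen t • z ∈ DL (pw t) ↔ z ∉ DLI (mw t)) ∧ (gen t • z ∈ DLI (pw t) ↔ z ∉ DL (mw t)) := by
  rw [M.gen_smul]
  cases t with
  | none =>
    have e : sg (pw none ++ (mw none).dropLast.reverse) z = s 3 (s 1 (s 0 (s 1 z))) := rfl
    have e1 : DL (pw none) = s 3 '' (s 1 '' (s 0 '' Disc 1)) := rfl
    have e2 : DLI (pw none) = s 3 '' (s 1 '' (s 0 '' DiscI 1)) := rfl
    have e3 : DL (mw none) = Disc 1 := rfl
    have e4 : DLI (mw none) = DiscI 1 := rfl
    rw [e, e1, e2, e3, e4]
    simp only [(s_inj B _).mem_set_image]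
    exact ⟨B.s_Disc 1 z, B.s_DiscI 1 z⟩
  | some v =>
    set a := v.getLastD 0 + 1 with ha
    set b := v.getLastD 0 + 2 with hb
    have hm : mw (some v) = v ++ [a] := rfl
    have hp : pw (some v) = v ++ [b, a] := rfl
    rw [hm, hp, List.dropLast_concat, W.sg_append, W.sg_append, W.DL_append v [b, a] (by simp),
      W.DLI_append v [b, a] (by simp), W.DL_append v [a] (by simp), W.DLI_append v [a] (by simp),
      mem_sg_image W v (DLI [a]), mem_sg_image W v (DL [a])]
    have e1 : DL [b, a] = s b '' Disc a := rfl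
    have e2 : DLI [b, a] = s b '' DiscI a := rfl
    have e3 : DL [a] = Disc a := rfl
    have e4 : DLI [a] = DiscI a := rfl
    have e5 : sg [b, a] (sg v.reverse z) = s b (s a (sg v.reverse z)) := rfl
    rw [e1, e2, e3, e4, e5]
    simp only [(sg_inj W _).mem_set_image, (s_inj B _).mem_set_image]
    exact ⟨B.s_Disc a _, B.s_DiscI a _⟩

end Pool.Agent.TH187.J2850
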