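import Pool.Agent.TH896.RC.Stm

set_option autoImplicit false

open MeasureTheory Filter Topology Set Polynomial

namespace Pool.Agent.TH187.J315

open Pool.Agent.TH896.RC

/-- the exceptions with logarithm in `[m, m+1)` -/
def Sm (m : ℕ) : Set ℕ := {n : ℕ | Exc n ∧ (m : ℝ) ≤ Real.log n ∧ Real.log n < m + 1}

lemma NN_le (m0 : ℕ) (x F : ℝ) (hx : 1 ≤ x) (hF : 0 ≤ F)
    (h : ∀ m : ℕ, m0 ≤ m → (m : ℝ) ≤ Real.log x → ((Sm m).ncard : ℝ) ≤ Real.exp F) :
    (NN x : ℝ) ≤ (Real.exp m0 + 2 + Real.log x) * Real.exp F := by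
  have hL : 0 ≤ Real.log x := Real.log_nonneg hx
  set M := ⌊Real.log x⌋₊ with hM
  have hML : (M : ℝ) ≤ Real.log x := Nat.floor_le hL
  have hsub : {n : ℕ | Exc n ∧ (n : ℝ) ≤ x} ⊆
      (↑(Finset.range (⌈Real.exp m0⌉₊)) : Set ℕ) ∪ ⋃ m ∈ Finset.Icc m0 M, Sm m := by
    rintro n ⟨hn, hnx⟩
    have hn3 : 3 ≤ n := hn.1
    have hn0 : (0 : ℝ) < n := by exact_mod_cast (by omega : 0 < n)
    have hn1 : (1 : ℝ) ≤ n := by exact_mod_cast (by omega : 1 ≤ n)
    have hlog : 0 ≤ Real.log n := Real.log_nonneg hn1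
    by_cases hm : Real.log n < m0
    · left
      rw [Finset.mem_coe, Finset.mem_range]
      apply Nat.lt_ceil.2
      rwa [← Real.log_lt_iff_lt_exp hn0]
    · right
      push Not at hm
      rw [mem_iUnion₂]
      refine ⟨⌊Real.log n⌋₊, ?_, hn, Nat.floor_le hlog, Nat.lt_floor_add_one _⟩
      rw [Finset.mem_Icc]
      exact ⟨Nat.le_floor hm, Nat.floor_le_floor (Real.log_le_log hn0 hnx)⟩
  have hfin1 : ∀ m : ℕ, (Sm m).Finite := by
    intro m
    refine (Set.finite_Iic (⌊Real.exp (m + 1)⌋₊)).subset ?_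
    rintro n ⟨hn, _, h2⟩
    have hn0 : (0 : ℝ) < n := by exact_mod_cast (by have := hn.1; omega : 0 < n)
    rw [mem_Iic]
    apply Nat.le_floor
    rw [Real.log_lt_iff_lt_exp hn0] at h2
    exact h2.le
  have hfin : ((↑(Finset.range (⌈Real.exp m0⌉₊)) : Set ℕ) ∪ ⋃ m ∈ Finset.Icc m0 M, Sm m).Finite := by
    refine (Finset.finite_toSet _).union ?_
    exact (Finset.finite_toSet (Finset.Icc m0 M)).biUnion fun m _ => hfin1 m
  have h1 : NN x ≤ ⌈Real.exp m0⌉₊ + ∑ m ∈ Finset.Icc m0 M, (Sm m).ncard := by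
    unfold NN
    refine (Set.ncard_le_ncard hsub hfin).trans ((Set.ncard_union_le _ _).trans ?_)
    refine add_le_add ?_ ?_
    · rw [Set.ncard_coe_finset, Finset.card_range]
    · exact Finset.set_ncard_biUnion_le _ _
  have h2 : (NN x : ℝ) ≤ (⌈Real.exp m0⌉₊ : ℝ) + ∑ m ∈ Finset.Icc m0 M, ((Sm m).ncard : ℝ) := by
    exact_mod_cast h1
  have h3 : ∑ m ∈ Finset.Icc m0 M, ((Sm m).ncard : ℝ) ≤ ∑ _m ∈ Finset.Icc m0 M, Real.exp F := by
    refine Finset.sum_le_sum fun m hm => ?_
    rw [Finset.mem_Icc] at hm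
    exact h m hm.1 (le_trans (by exact_mod_cast hm.2) hML)
  rw [Finset.sum_const, nsmul_eq_mul, Nat.card_Icc] at h3
  have h4 : ((M + 1 - m0 : ℕ) : ℝ) ≤ Real.log x + 1 := by
    have : ((M + 1 - m0 : ℕ) : ℝ) ≤ ((M + 1 : ℕ) : ℝ) := by exact_mod_cast Nat.sub_le _ _
    refine this.trans ?_
    push_cast
    linarith
  have h5 : (⌈Real.exp m0⌉₊ : ℝ) ≤ Real.exp m0 + 1 := (Nat.ceil_lt_add_one (Real.exp_pos _).le).le
  have h6 : (1 : ℝ) ≤ Real.exp F := Real.one_le_exp hF
  have h7 : (⌈Real.exp m0⌉₊ : ℝ) ≤ (Real.exp m0 + 1) * Real.exp F := by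
    refine h5.trans ?_
    have : 0 ≤ Real.exp (m0 : ℝ) + 1 := by positivity
    nlinarith
  have h8 : ((M + 1 - m0 : ℕ) : ℝ) * Real.exp F ≤ (Real.log x + 1) * Real.exp F :=
    mul_le_mul_of_nonneg_right h4 (Real.exp_pos _).le
  nlinarith

/-- Part 1 -/
lemma up1 (h1 : S_CNT) (h2 : S_BUP) (θ C η : ℝ) (hθ : 1 / 2 ≤ θ) (hθ1 : θ < 1) (hη : 0 < η)
    (hE : ∀ v : ℝ, 0 ≤ v → |E v| ≤ C * Real.exp (θ * v)) :
    ∀ᶠ x : ℝ in atTop, (NN x : ℝ) ≤ Real.exp (Real.log x ^ ((1 + θ) / 2 + η)) := by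
  obtain ⟨C', hC'⟩ := h2.1 C θ hθ1 hE
  obtain ⟨C0, hC0⟩ := h1
  have hC'0 : 0 ≤ C' := by
    have := (abs_nonneg _).trans (hC' 1 le_rfl)
    exact nonneg_of_mul_nonneg_left this (Real.exp_pos _)
  set α := (1 + θ) / 2 with hα
  have hα0 : 0 < α := by rw [hα]; linarith
  set K := |C0| * Real.sqrt (C' + 1) with hK
  have hK0 : 0 ≤ K := by positivity
  -- the bound for `Sm m`
  have hev : ∀ᶠ m : ℕ in atTop, ((Sm m).ncard : ℝ) ≤ Real.exp (K * (m : ℝ) ^ α * Real.log m) := by
    have hsmall : ∀ᶠ m : ℕ in atTop, (C' + 1) * (m : ℝ) ^ (θ - 1) ≤ 1 / 16 := by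
      have t1 : Tendsto (fun m : ℕ => (C' + 1) * (m : ℝ) ^ (θ - 1)) atTop (𝓝 ((C' + 1) * 0)) := by
        apply Tendsto.const_mul
        have := (tendsto_rpow_neg_atTop (show 0 < 1 - θ by linarith)).comp
          (tendsto_natCast_atTop_atTop (R := ℝ))
        refine this.congr fun m => ?_
        simp only [Function.comp_apply]
        congr 1
        ring
      rw [mul_zero] at t1
      exact t1.eventually_le_const (by norm_num)
    filter_upwards [hC0, hsmall, eventually_ge_atTop 3] with m hm hsm hm3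
    have hmR : (3 : ℝ) ≤ m := by exact_mod_cast hm3
    have hm0 : (0 : ℝ) < m := by linarith
    have hm1 : (1 : ℝ) ≤ m := by linarith
    have hlog1 : 1 ≤ Real.log m := by
      rw [Real.le_log_iff_exp_le hm0]
      exact Real.exp_one_lt_three.le.trans hmR
    have hmono : (m : ℝ) ^ (-(1 / 2) : ℝ) ≤ (m : ℝ) ^ (θ - 1) :=
      Real.rpow_le_rpow_of_exponent_le hm1 (by linarith)
    have hB : B (Real.log m) ≤ C' * (m : ℝ) ^ (θ - 1) := by
      refine (le_abs_self _).trans ((hC' _ hlog1).trans (le_of_eq ?_))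
      rw [Real.rpow_def_of_pos hm0, mul_comm (θ - 1)]
    have hpow : 0 < (m : ℝ) ^ (θ - 1) := Real.rpow_pos_of_pos hm0 _
    have := hm ((C' + 1) * (m : ℝ) ^ (θ - 1)) (by nlinarith) hsm (by nlinarith)
    refine this.trans (Real.exp_le_exp.2 ?_)
    rw [Real.sqrt_mul (by linarith)]
    have hs : Real.sqrt ((m : ℝ) ^ (θ - 1)) * m = (m : ℝ) ^ α := by
      rw [Real.sqrt_eq_rpow, ← Real.rpow_mul hm0.le]
      nth_rewrite 2 [← Real.rpow_one (m : ℝ)]
      rw [← Real.rpow_add hm0]
      congr 1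
      rw [hα]; ring
    calc C0 * (Real.sqrt (C' + 1) * Real.sqrt ((m : ℝ) ^ (θ - 1))) * m * Real.log m
        ≤ |C0| * (Real.sqrt (C' + 1) * Real.sqrt ((m : ℝ) ^ (θ - 1))) * m * Real.log m := by
          gcongr
          exact le_abs_self _
      _ = K * (Real.sqrt ((m : ℝ) ^ (θ - 1)) * m) * Real.log m := by rw [hK]; ring
      _ = _ := by rw [hs]
  obtain ⟨m0, hm0⟩ := eventually_atTop.1 hev
  -- asymptotics
  have hlogx : Tendsto Real.log atTop atTop := Real.tendsto_log_atTop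
  have e1 : ∀ᶠ L : ℝ in atTop, Real.exp (m0 : ℝ) + 2 + L ≤ Real.exp (L ^ α) := by
    have t1 : Tendsto (fun L : ℝ => L ^ α) atTop atTop := tendsto_rpow_atTop hα0
    -- exp (L^α) ≥ (L^α)^p / p! with p α > 1; use little-o
    have t2 : (fun L : ℝ => Real.exp (m0 : ℝ) + 2 + L) =O[atTop] (fun L : ℝ => L ^ (1 : ℝ)) := by
      have a1 : (fun _ : ℝ => Real.exp (m0 : ℝ) + 2) =O[atTop] (fun L : ℝ => L) :=
        (Asymptotics.isLittleO_const_id_atTop _).isBigO
      have a2 := a1.add (Asymptotics.isBigO_refl (fun L : ℝ => L) atTop)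
      simpa using a2
    have t3 : (fun L : ℝ => L ^ (1 : ℝ)) =o[atTop] (fun L : ℝ => Real.exp (L ^ α)) := by
      have a1 := (isLittleO_rpow_exp_pos_mul_atTop (1 / α) (b := 1) one_pos).comp_tendsto t1
      refine (a1.congr' ?_ ?_)
      · filter_upwards [eventually_gt_atTop 0] with L hL
        simp only [Function.comp_apply]
        rw [← Real.rpow_mul hL.le]
        congr 1
        field_simp
      · exact Eventually.of_forall fun L => by simp
    have t4 := (t2.trans_isLittleO t3).bound one_pos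
    filter_upwards [t4] with L hL
    rw [Real.norm_eq_abs, Real.norm_eq_abs, one_mul, abs_of_pos (Real.exp_pos _)] at hL
    exact (le_abs_self _).trans hL
  have e2 : ∀ᶠ L : ℝ in atTop, 1 + K * Real.log L ≤ L ^ η := by
    have t2 : (fun L : ℝ => 1 + K * Real.log L) =o[atTop] (fun L : ℝ => L ^ η) := by
      refine Asymptotics.IsLittleO.add ?_ ?_
      · have := (tendsto_rpow_atTop hη)
        exact Asymptotics.isLittleO_const_left.2 (Or.inr (tendsto_norm_atTop_atTop.comp this))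
      · exact (isLittleO_log_rpow_atTop hη).const_mul_left K
    have t4 := t2.bound one_pos
    filter_upwards [t4, eventually_gt_atTop 0] with L hL hL0
    rw [Real.norm_eq_abs, Real.norm_eq_abs, one_mul, abs_of_pos (Real.rpow_pos_of_pos hL0 _)] at hL
    exact (le_abs_self _).trans hL
  filter_upwards [hlogx.eventually e1, hlogx.eventually e2, eventually_ge_atTop (Real.exp 1)]
    with x hx1 hx2 hx3
  have hx0 : 0 < x := lt_of_lt_of_le (Real.exp_pos 1) hx3
  have hx1' : 1 ≤ x := le_trans (Real.one_le_exp zero_le_one) hx3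
  set L := Real.log x with hLdef
  have hL1 : 1 ≤ L := by rw [hLdef, Real.le_log_iff_exp_le hx0]; exact hx3
  have hL0 : 0 < L := by linarith
  have hlogL : 0 ≤ Real.log L := Real.log_nonneg hL1
  set F := K * L ^ α * Real.log L with hF
  have hF0 : 0 ≤ F := by positivity
  have hmain := NN_le m0 x F hx1' hF0 (by
    intro m hm hmL
    refine (hm0 m hm).trans (Real.exp_le_exp.2 ?_)
    rw [hF]
    rcases Nat.eq_zero_or_pos m with h0 | h0
    · rw [h0, Nat.cast_zero, Real.log_zero, mul_zero]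
      exact hF0
    · have hmp : (0 : ℝ) < m := by exact_mod_cast h0
      have hm1 : (1 : ℝ) ≤ m := by exact_mod_cast h0
      have a1 : (m : ℝ) ^ α ≤ L ^ α := Real.rpow_le_rpow hmp.le hmL hα0.le
      have a2 : Real.log m ≤ Real.log L := Real.log_le_log hmp hmL
      have a3 : 0 ≤ Real.log m := Real.log_nonneg hm1
      gcongr)
  refine hmain.trans ?_
  calc (Real.exp (m0 : ℝ) + 2 + L) * Real.exp F ≤ Real.exp (L ^ α) * Real.exp F :=
        mul_le_mul_of_nonneg_right hx1 (Real.exp_pos _).le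
    _ = Real.exp (L ^ α * (1 + K * Real.log L)) := by
        rw [← Real.exp_add, hF]; congr 1; ring
    _ ≤ Real.exp (L ^ α * L ^ η) := by
        apply Real.exp_le_exp.2
        exact mul_le_mul_of_nonneg_left hx2 (Real.rpow_nonneg hL0.le _)
    _ = _ := by rw [← Real.rpow_add hL0]

/-- Part 2 -/
lemma up2 (h1 : S_CNT) (h2 : S_BUP) : ∃ c : ℝ, 0 < c ∧ ∀ᶠ x : ℝ in atTop,
    (NN x : ℝ) ≤ Real.exp (Real.log x * Real.exp (-(c * Real.sqrt (Real.log (Real.log x))))) := by
  obtain ⟨c, C, hc, hC⟩ := h2.2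
  obtain ⟨C0, hC0⟩ := h1
  have hCnn : 0 ≤ C := by
    have := (abs_nonneg _).trans (hC 1 le_rfl)
    exact nonneg_of_mul_nonneg_left this (Real.exp_pos _)
  set c' := min c (1 / 2) with hc'
  have hc'0 : 0 < c' := lt_min hc (by norm_num)
  have hc'1 : c' ≤ c := min_le_left _ _
  have hc'2 : c' ≤ 1 / 2 := min_le_right _ _
  set d := c' / 4 with hd
  have hd0 : 0 < d := by rw [hd]; linarith
  set K := |C0| * Real.sqrt (C + 1) with hK
  have hK0 : 0 ≤ K := by positivity
  have hsq : Tendsto (fun m : ℕ => Real.sqrt (Real.log m)) atTop atTop :=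
    Real.tendsto_sqrt_atTop.comp (Real.tendsto_log_atTop.comp
      (tendsto_natCast_atTop_atTop (R := ℝ)))
  have hev : ∀ᶠ m : ℕ in atTop, ((Sm m).ncard : ℝ) ≤
      Real.exp ((m : ℝ) * Real.exp (-(d * Real.sqrt (Real.log m)))) := by
    have hsmall : ∀ᶠ m : ℕ in atTop,
        (C + 1) * Real.exp (-(c' * Real.sqrt (Real.log m))) ≤ 1 / 16 := by
      have t1 : Tendsto (fun m : ℕ => (C + 1) * Real.exp (-(c' * Real.sqrt (Real.log m)))) atTop
          (𝓝 ((C + 1) * 0)) := by
        apply Tendsto.const_mul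
        exact Real.tendsto_exp_atBot.comp (tendsto_neg_atTop_atBot.comp
          (hsq.const_mul_atTop hc'0))
      rw [mul_zero] at t1
      exact t1.eventually_le_const (by norm_num)
    have hlog : ∀ᶠ s : ℝ in atTop, K * s ^ 2 ≤ Real.exp (d * s) := by
      have t2 : (fun s : ℝ => K * s ^ 2) =o[atTop] (fun s : ℝ => Real.exp (d * s)) := by
        have := isLittleO_pow_exp_pos_mul_atTop 2 hd0
        exact this.const_mul_left K
      filter_upwards [t2.bound one_pos] with s hs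
      rw [Real.norm_eq_abs, Real.norm_eq_abs, one_mul, abs_of_pos (Real.exp_pos _)] at hs
      exact (le_abs_self _).trans hs
    filter_upwards [hC0, hsmall, hsq.eventually hlog, eventually_ge_atTop 3] with m hm hsm hlg hm3
    have hmR : (3 : ℝ) ≤ m := by exact_mod_cast hm3
    have hm0 : (0 : ℝ) < m := by linarith
    have hlog1 : 1 ≤ Real.log m := by
      rw [Real.le_log_iff_exp_le hm0]
      exact Real.exp_one_lt_three.le.trans hmR
    have hlog0 : 0 ≤ Real.log m := by linarith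
    set s := Real.sqrt (Real.log m) with hs
    have hs1 : 1 ≤ s := by rw [hs]; exact Real.one_le_sqrt.2 hlog1
    have hss : s ^ 2 = Real.log m := Real.sq_sqrt hlog0
    have hη : (m : ℝ) ^ (-(1 / 2) : ℝ) ≤ Real.exp (-(c' * s)) := by
      rw [Real.rpow_def_of_pos hm0]
      apply Real.exp_le_exp.2
      rw [← hss]
      nlinarith
    have hB : B (Real.log m) ≤ C * Real.exp (-(c' * s)) := by
      refine (le_abs_self _).trans ((hC _ hlog1).trans ?_)
      apply mul_le_mul_of_nonneg_left _ hCnn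
      apply Real.exp_le_exp.2
      nlinarith
    have hpos : 0 < Real.exp (-(c' * s)) := Real.exp_pos _
    have := hm ((C + 1) * Real.exp (-(c' * s))) (by nlinarith) hsm (by nlinarith)
    refine this.trans (Real.exp_le_exp.2 ?_)
    rw [Real.sqrt_mul (by linarith)]
    have hsq2 : Real.sqrt (Real.exp (-(c' * s))) = Real.exp (-(2 * d * s)) := by
      rw [Real.sqrt_eq_iff_mul_self_eq (Real.exp_pos _).le (Real.exp_pos _).le, ← Real.exp_add]
      congr 1
      rw [hd]; ring
    rw [hsq2]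
    calc C0 * (Real.sqrt (C + 1) * Real.exp (-(2 * d * s))) * m * Real.log m
        ≤ |C0| * (Real.sqrt (C + 1) * Real.exp (-(2 * d * s))) * m * Real.log m := by
          gcongr
          exact le_abs_self _
      _ = m * Real.exp (-(2 * d * s)) * (K * s ^ 2) := by rw [hK, hss]; ring
      _ ≤ m * Real.exp (-(2 * d * s)) * Real.exp (d * s) :=
          mul_le_mul_of_nonneg_left hlg (by positivity)
      _ = m * Real.exp (-(d * s)) := by
          rw [mul_assoc, ← Real.exp_add]; congr 2; ring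
  obtain ⟨m0, hm0⟩ := eventually_atTop.1 hev
  refine ⟨d / 2, by linarith, ?_⟩
  have hlogx : Tendsto Real.log atTop atTop := Real.tendsto_log_atTop
  have hs : Tendsto (fun L : ℝ => Real.sqrt (Real.log L)) atTop atTop :=
    Real.tendsto_sqrt_atTop.comp Real.tendsto_log_atTop
  have e1 : ∀ᶠ L : ℝ in atTop, Real.exp (m0 : ℝ) + 2 + L ≤ Real.exp (L ^ (1 / 2 : ℝ)) := by
    have hα0 : (0 : ℝ) < 1 / 2 := by norm_num
    have t1 : Tendsto (fun L : ℝ => L ^ (1 / 2 : ℝ)) atTop atTop := tendsto_rpow_atTop hα0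
    have t2 : (fun L : ℝ => Real.exp (m0 : ℝ) + 2 + L) =O[atTop] (fun L : ℝ => L ^ (1 : ℝ)) := by
      have a1 : (fun _ : ℝ => Real.exp (m0 : ℝ) + 2) =O[atTop] (fun L : ℝ => L) :=
        (Asymptotics.isLittleO_const_id_atTop _).isBigO
      have a2 := a1.add (Asymptotics.isBigO_refl (fun L : ℝ => L) atTop)
      simpa using a2
    have t3 : (fun L : ℝ => L ^ (1 : ℝ)) =o[atTop] (fun L : ℝ => Real.exp (L ^ (1 / 2 : ℝ))) := by
      have a1 := (isLittleO_rpow_exp_pos_mul_atTop 2 (b := 1) one_pos).comp_tendsto t1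
      refine (a1.congr' ?_ ?_)
      · filter_upwards [eventually_gt_atTop 0] with L hL
        simp only [Function.comp_apply]
        rw [← Real.rpow_mul hL.le]
        congr 1
        norm_num
      · exact Eventually.of_forall fun L => by simp
    filter_upwards [(t2.trans_isLittleO t3).bound one_pos] with L hL
    rw [Real.norm_eq_abs, Real.norm_eq_abs, one_mul, abs_of_pos (Real.exp_pos _)] at hL
    exact (le_abs_self _).trans hL
  filter_upwards [hlogx.eventually e1, hlogx.eventually (hs.eventually (eventually_ge_atTop (d + 2))),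
    hlogx.eventually (hs.eventually (eventually_ge_atTop (2 / d))),
    eventually_ge_atTop (Real.exp 1)] with x hx1 hx2 hx2' hx3
  have hx0 : 0 < x := lt_of_lt_of_le (Real.exp_pos 1) hx3
  have hx1' : 1 ≤ x := le_trans (Real.one_le_exp zero_le_one) hx3
  set L := Real.log x with hLdef
  have hL1 : 1 ≤ L := by rw [hLdef, Real.le_log_iff_exp_le hx0]; exact hx3
  have hL0 : 0 < L := by linarith
  have hlogL : 0 ≤ Real.log L := Real.log_nonneg hL1
  set s := Real.sqrt (Real.log L) with hsdef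
  have hss : s ^ 2 = Real.log L := Real.sq_sqrt hlogL
  have hmain := NN_le m0 x (L * Real.exp (-(d * s))) hx1' (by positivity) (by
    intro m hm hmL
    refine (hm0 m hm).trans (Real.exp_le_exp.2 ?_)
    rcases Nat.eq_zero_or_pos m with h0 | h0
    · rw [h0, Nat.cast_zero, zero_mul]
      positivity
    · have hmp : (0 : ℝ) < m := by exact_mod_cast h0
      have hm1 : (1 : ℝ) ≤ m := by exact_mod_cast h0
      have a3 : 0 ≤ Real.log m := Real.log_nonneg hm1
      have a2 : Real.log m ≤ Real.log L := Real.log_le_log hmp hmL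
      set u := Real.sqrt (Real.log m) with hu
      have hu0 : 0 ≤ u := Real.sqrt_nonneg _
      have huu : u ^ 2 = Real.log m := Real.sq_sqrt a3
      have hus : u ≤ s := Real.sqrt_le_sqrt a2
      have e3 : (m : ℝ) * Real.exp (-(d * u)) = Real.exp (u ^ 2 - d * u) := by
        rw [huu, Real.exp_sub, Real.exp_log hmp, Real.exp_neg]
        rfl
      have e4 : L * Real.exp (-(d * s)) = Real.exp (s ^ 2 - d * s) := by
        rw [hss, Real.exp_sub, Real.exp_log hL0, Real.exp_neg]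
        rfl
      rw [e3, e4]
      apply Real.exp_le_exp.2
      nlinarith [mul_nonneg (sub_nonneg.2 hus) (by linarith : (0 : ℝ) ≤ s + u - d)])
  refine hmain.trans ?_
  have hs0 : 0 < s := by linarith
  have b1 : L ^ (1 / 2 : ℝ) = L * Real.exp (-(s ^ 2 / 2)) := by
    rw [hss, Real.rpow_def_of_pos hL0]
    nth_rewrite 2 [← Real.exp_log hL0]
    rw [← Real.exp_add]
    congr 1
    ring
  have hlog2 : Real.log 2 ≤ 1 := by
    have := Real.log_two_lt_d9
    linarith
  have b2 : Real.exp (-(s ^ 2 / 2)) ≤ 1 / 2 * Real.exp (-(d / 2 * s)) := by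
    have : (1 / 2 : ℝ) = Real.exp (-Real.log 2) := by
      rw [Real.exp_neg, Real.exp_log (by norm_num)]; norm_num
    rw [this, ← Real.exp_add]
    apply Real.exp_le_exp.2
    nlinarith [mul_nonneg hs0.le (by linarith : (0 : ℝ) ≤ s - d - 2)]
  have b3 : Real.exp (-(d * s)) ≤ 1 / 2 * Real.exp (-(d / 2 * s)) := by
    have : (1 / 2 : ℝ) = Real.exp (-Real.log 2) := by
      rw [Real.exp_neg, Real.exp_log (by norm_num)]; norm_num
    rw [this, ← Real.exp_add]
    apply Real.exp_le_exp.2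
    have : 2 ≤ d * s := by
      rw [div_le_iff₀ hd0] at hx2'
      linarith
    linarith
  calc (Real.exp (m0 : ℝ) + 2 + L) * Real.exp (L * Real.exp (-(d * s)))
      ≤ Real.exp (L ^ (1 / 2 : ℝ)) * Real.exp (L * Real.exp (-(d * s))) :=
        mul_le_mul_of_nonneg_right hx1 (Real.exp_pos _).le
    _ = Real.exp (L * (Real.exp (-(s ^ 2 / 2)) + Real.exp (-(d * s)))) := by
        rw [← Real.exp_add, b1]; congr 1; ring
    _ ≤ Real.exp (L * Real.exp (-(d / 2 * s))) := by
        apply Real.exp_le_exp.2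
        apply mul_le_mul_of_nonneg_left _ hL0.le
        linarith

theorem up : S_CNT → S_BUP → S_UP := by
  intro h1 h2
  exact ⟨fun θ C η hθ hθ1 hη hE => up1 h1 h2 θ C η hθ hθ1 hη hE, up2 h1 h2⟩

end Pool.Agent.TH187.J315
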